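import Pool.Agent.Helper23.AC.UBall

/-! AC-10: the evaluation of a functional of low type at an average of norming functionals
(MP_981e7e_an) -/

set_option autoImplicit false

namespace Pool.Agent.Helper23.AC.H28

open Finset

theorem patF_eq_sum (c : Fn) (g : ℕ → Fn) : patF c g = c.sum fun π a => a • g π := rfl

theorem patF_add (c c' : Fn) (g : ℕ → Fn) : patF (c + c') g = patF c g + patF c' g := by
  classical
  rw [patF_eq_sum, patF_eq_sum, patF_eq_sum]
  exact Finsupp.sum_add_index' (fun _ => zero_smul _ _) (fun _ _ _ => add_smul _ _ _)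

theorem patF_smul (a : ℝ) (c : Fn) (g : ℕ → Fn) : patF (a • c) g = a • patF c g := by
  unfold patF
  rw [Finset.smul_sum, Finset.sum_subset (Finsupp.support_smul (b := a) (g := c))]
  · refine Finset.sum_congr rfl fun v _ => ?_
    rw [Finsupp.smul_apply, smul_eq_mul, mul_smul]
  · intro v _ hv
    rw [Finsupp.notMem_support_iff.mp hv, zero_smul]

theorem filter_abs_le (c : Fn) (P : ℕ → Prop) [DecidablePred P] (π : ℕ) :
    |(c.filter P) π| ≤ |c π| := by
  rw [Finsupp.filter_apply]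
  split_ifs
  · exact le_rfl
  · rw [abs_zero]
    exact abs_nonneg _

theorem filter_abs_le' (c : Fn) (P : ℕ → Prop) [DecidablePred P] {a : ℝ} (ha : 0 ≤ a)
    (h : ∀ π, P π → |c π| ≤ a) (π : ℕ) : |(c.filter P) π| ≤ a := by
  rw [Finsupp.filter_apply]
  split_ifs with h1
  · exact h π h1
  · rw [abs_zero]
    exact ha

theorem filter_support_sub (c : Fn) (P : ℕ → Prop) [DecidablePred P] :
    (c.filter P).support ⊆ c.support := by
  rw [Finsupp.support_filter]
  exact Finset.filter_subset _ _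

theorem abs_coord_le_of_norming {z : ℕ → ℝ} (hz : ∀ f, Good 0 f → |pr f z| ≤ 1) (n : ℕ) :
    |z n| ≤ 8 := by
  have h := hz (Finsupp.single n (1 / 8))
    (typ_good (v := 1) (t := 0) (typ_single n (by norm_num)) le_rfl (Nat.zero_le _))
  rw [pr_single, abs_mul, abs_of_pos (by norm_num : (0 : ℝ) < 1 / 8)] at h
  linarith

/-- a child at a norming functional -/
theorem child_le {v : ℕ} {c : Fn} {g : ℕ → Fn} (hP : Pat v c g) {π : ℕ} (hπ : π ∈ c.support)
    {z : ℕ → ℝ} (hz : ∀ f, Good 0 f → |pr f z| ≤ 1) : |pr (g π) z| ≤ 8 := by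
  rcases hP.hg π hπ with ⟨n, hn⟩ | hg
  · rw [hn, pr_single, one_mul]
    exact abs_coord_le_of_norming hz n
  · exact (hz _ (good_mono (Nat.zero_le _) hg)).trans (by norm_num)

theorem pr_eq_zero_of_disj {f : Fn} {z : ℕ → ℝ} (h : ∀ n ∈ f.support, z n = 0) : pr f z = 0 := by
  unfold pr
  exact Finset.sum_eq_zero fun n hn => by rw [h n hn, mul_zero]

theorem pr_patF (c : Fn) (g : ℕ → Fn) (z : ℕ → ℝ) :
    pr (patF c g) z = ∑ π ∈ c.support, c π * pr (g π) z := by
  unfold patF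
  rw [pr_sum]
  exact Finset.sum_congr rfl fun π _ => pr_smul _ _ _

/-- an average of norming functionals is norming -/
theorem avg_norming {F : Finset ℕ} {b : ℕ → ℝ} {z : ℕ → ℕ → ℝ} (hb : ∀ i ∈ F, 0 < b i)
    (hb1 : ∑ i ∈ F, b i = 1) (hz : ∀ i ∈ F, ∀ f, Good 0 f → |pr f (z i)| ≤ 1) {f : Fn}
    (hf : Good 0 f) : |pr f (fun n => ∑ i ∈ F, b i * z i n)| ≤ 1 := by
  rw [pr_fsum]
  calc |∑ i ∈ F, b i * pr f (z i)| ≤ ∑ i ∈ F, |b i * pr f (z i)| := Finset.abs_sum_le_sum_abs _ _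
    _ ≤ ∑ i ∈ F, b i := Finset.sum_le_sum fun i hi => by
        rw [abs_mul, abs_of_pos (hb i hi)]
        have := hz i hi f hf
        have := hb i hi
        nlinarith
    _ = 1 := hb1

/-- the positions with large coefficients whose children meet `[p, q]` -/
noncomputable def bigPos (c : Fn) (g : ℕ → Fn) (τ : ℝ) (p q : ℕ) : Finset ℕ :=
  @Finset.filter ℕ (fun π => τ ≤ |c π| ∧ ∃ n ∈ (g π).support, p ≤ n ∧ n ≤ q)
    (Classical.decPred _) c.support

theorem mem_bigPos {c : Fn} {g : ℕ → Fn} {τ : ℝ} {p q π : ℕ} : π ∈ bigPos c g τ p q ↔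
    π ∈ c.support ∧ τ ≤ |c π| ∧ ∃ n ∈ (g π).support, p ≤ n ∧ n ≤ q := by
  exact @Finset.mem_filter ℕ _ (Classical.decPred _) _ _

/-- a window with two big positions contains the last one -/
theorem bigPos_two {v : ℕ} {c : Fn} {g : ℕ → Fn} (hP : Pat v c g) {τ : ℝ} {p q : ℕ}
    (h : 2 ≤ #(bigPos c g τ p q)) : ∃ π ∈ bigPos c g τ p q, p < π ∧ π ≤ q := by
  have hne : (bigPos c g τ p q).Nonempty := Finset.card_pos.1 (by omega)
  refine ⟨(bigPos c g τ p q).max' hne, Finset.max'_mem _ hne, ?_, ?_⟩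
  · obtain ⟨π', hπ', hlt⟩ : ∃ π' ∈ bigPos c g τ p q, π' ≠ (bigPos c g τ p q).max' hne := by
      by_contra hcon
      push Not at hcon
      have : bigPos c g τ p q ⊆ {(bigPos c g τ p q).max' hne} := fun x hx =>
        Finset.mem_singleton.2 (hcon x hx)
      have := Finset.card_le_card this
      rw [Finset.card_singleton] at this
      omega
    have hlt' : π' < (bigPos c g τ p q).max' hne :=
      lt_of_le_of_ne (Finset.le_max' _ _ hπ') hlt
    obtain ⟨h1, -, n, hn, hn1, hn2⟩ := mem_bigPos.1 hπ'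
    have h3 := mem_bigPos.1 (Finset.max'_mem _ hne)
    have := hP.s2 π' h1 _ h3.1 hlt' n hn
    omega
  · obtain ⟨h1, -, n, hn, hn1, hn2⟩ := mem_bigPos.1 (Finset.max'_mem _ hne)
    have := hP.s1 _ h1 n hn
    omega

/-- windows with at least two big positions are rare -/
theorem sum_two_le {v : ℕ} {c : Fn} {g : ℕ → Fn} (hP : Pat v c g) {τ δ : ℝ}
    {F F2 : Finset ℕ} (hF : F2 ⊆ F) {b : ℕ → ℝ} (hb : ∀ i ∈ F, 0 < b i) {p q : ℕ → ℕ}
    (hω : ∀ ω : ℕ → Fn, (∀ i ∈ F, (∀ n ∈ (ω i).support, p i < n ∧ n ≤ q i) ∧ tau (ω i) ≤ 1) →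
      tau (∑ i ∈ F, b i • ω i) ≤ δ)
    (ρ : ℕ → ℕ) (hρ : ∀ i ∈ F2, τ ≤ |c (ρ i)| ∧ p i < ρ i ∧ ρ i ≤ q i) :
    τ * ∑ i ∈ F2, b i ≤ bb v * δ := by
  classical
  set ω : ℕ → Fn := fun i => if i ∈ F2 then Finsupp.single (ρ i) 1 else 0 with hωdef
  have h1 : tau (∑ i ∈ F, b i • ω i) ≤ δ := by
    apply hω
    intro i _
    by_cases hi : i ∈ F2
    · rw [hωdef]
      simp only [if_pos hi]
      refine ⟨fun n hn => ?_, ?_⟩
      · have := Finsupp.support_single_subset hn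
        rw [Finset.mem_singleton] at this
        rw [this]
        exact (hρ i hi).2
      · rw [tau_single]; simp
    · rw [hωdef]
      simp only [if_neg hi]
      exact ⟨fun n hn => by simp at hn, by rw [tau_zero]; norm_num⟩
  have h2 : prA c (∑ i ∈ F, b i • ω i) ≤ bb v * δ :=
    (hP.c2 _).trans (mul_le_mul_of_nonneg_left h1 (bb_pos v).le)
  refine le_trans ?_ h2
  rw [prA_comm, prA_sum_left_of_nonneg]
  · rw [Finset.mul_sum]
    calc ∑ i ∈ F2, τ * b i ≤ ∑ i ∈ F2, prA (b i • ω i) c := by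
          apply Finset.sum_le_sum
          intro i hi
          rw [hωdef]
          simp only [if_pos hi]
          rw [prA_smul_left, prA_single_left, abs_of_pos (hb i (hF hi))]
          simp only [abs_one, one_mul]
          rw [mul_comm]
          exact mul_le_mul_of_nonneg_left (hρ i hi).1 (hb i (hF hi)).le
      _ ≤ ∑ i ∈ F, prA (b i • ω i) c :=
          Finset.sum_le_sum_of_subset_of_nonneg hF fun _ _ _ => prA_nonneg _ _
  · intro i hi n
    rw [Finsupp.smul_apply, smul_eq_mul]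
    apply mul_nonneg (hb i hi).le
    rw [hωdef]
    dsimp only
    split_ifs
    · rw [Finsupp.single_apply]; split_ifs <;> norm_num
    · simp

/-- splitting the coefficients at a threshold: the part with small coefficients -/
theorem small_part {v : ℕ} {c : Fn} {g : ℕ → Fn} (hP : Pat v c g) {w : ℕ → ℝ}
    (hw : ∀ f, Good 0 f → |pr f w| ≤ 1) :
    |pr (patF (c.filter fun π => ¬ (1 / 8 : ℝ) ^ (2 * v + 1) ≤ |c π|) g) w| ≤
      (1 / 8 : ℝ) ^ v := by
  classical
  set c' := c.filter fun π => ¬ (1 / 8 : ℝ) ^ (2 * v + 1) ≤ |c π| with hc'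
  have hle : ∀ π, |c' π| ≤ |c π| := filter_abs_le c _
  have hle' : ∀ π, |c' π| ≤ (1 / 8 : ℝ) ^ (2 * v + 1) :=
    filter_abs_le' c _ (by positivity) fun π h => (not_le.1 h).le
  have h8 : (0 : ℝ) < 8 ^ v := by positivity
  have hpat : Pat (v + 1) ((8 : ℝ) ^ v • c') g := by
    refine pat_of_le hP ?_ ?_ ?_
    · exact Finsupp.support_smul.trans (filter_support_sub c _)
    · intro π
      rw [Finsupp.smul_apply, smul_eq_mul, abs_mul, abs_of_pos h8]
      calc (8 : ℝ) ^ v * |c' π| ≤ 8 ^ v * (1 / 8 : ℝ) ^ (2 * v + 1) :=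
            mul_le_mul_of_nonneg_left (hle' π) h8.le
        _ = (1 / 8 : ℝ) ^ (v + 1) := by
            rw [show 2 * v + 1 = v + (v + 1) by ring, pow_add (1 / 8 : ℝ) v, ← mul_assoc,
              ← mul_pow]
            norm_num
    · have h1 := ub_smul ((8 : ℝ) ^ v) (ub_mono hle hP.c2)
      rw [abs_of_pos h8] at h1
      refine ub_weaken ?_ h1
      unfold bb
      rw [show (8 : ℝ) ^ v = 2 ^ (3 * v) by rw [pow_mul]; norm_num, ← pow_add]
      exact pow_le_pow_right₀ (by norm_num) (by nlinarith)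
  have h1 := hw _ (typ_good (t := 0) ⟨_, g, hpat, rfl⟩ (by omega) (Nat.zero_le _))
  rw [patF_smul, pr_smul, abs_mul, abs_of_pos h8] at h1
  rw [one_div, inv_pow, ← one_div, le_div_iff₀ h8]
  linarith

/-- the part with large coefficients on one window -/
theorem large_part {v : ℕ} (hv : 1 ≤ v) {c : Fn} {g : ℕ → Fn} (hP : Pat v c g) (τ : ℝ)
    {z : ℕ → ℝ} {p q : ℕ} (hz : ∀ f, Good 0 f → |pr f z| ≤ 1)
    (hs : ∀ n, z n ≠ 0 → p ≤ n ∧ n ≤ q) :
    |pr (patF (c.filter fun π => τ ≤ |c π|) g) z| ≤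
      8 * (1 / 8 : ℝ) ^ v + if 2 ≤ #(bigPos c g τ p q) then 1 else 0 := by
  classical
  set c' := c.filter fun π => τ ≤ |c π| with hc'
  have hsub : c'.support ⊆ c.support := filter_support_sub c _
  have hle : ∀ π, |c' π| ≤ |c π| := filter_abs_le c _
  have hnn : (0 : ℝ) ≤ 8 * (1 / 8 : ℝ) ^ v := by positivity
  split_ifs with h2
  · have hpat : Pat v c' g :=
      pat_of_le hP hsub (fun π => (hle π).trans (hP.c1 π)) (ub_mono hle hP.c2)
    have := hz _ (typ_good (t := 0) ⟨_, g, hpat, rfl⟩ hv (Nat.zero_le _))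
    linarith
  · rw [pr_patF, add_zero]
    have h3 : ∑ π ∈ c'.support, c' π * pr (g π) z =
        ∑ π ∈ bigPos c g τ p q, c π * pr (g π) z := by
      have hsub' : bigPos c g τ p q ⊆ c'.support := by
        intro π hπ
        obtain ⟨h4, h5, -⟩ := mem_bigPos.1 hπ
        rw [hc', Finsupp.support_filter, Finset.mem_filter]
        exact ⟨h4, h5⟩
      rw [← Finset.sum_subset hsub']
      · apply Finset.sum_congr rfl
        intro π hπ
        obtain ⟨h4, h5, -⟩ := mem_bigPos.1 hπ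
        rw [hc', Finsupp.filter_apply, if_pos h5]
      · intro π hπ hπ'
        rw [hc', Finsupp.support_filter, Finset.mem_filter] at hπ
        rw [mem_bigPos] at hπ'
        have h6 : pr (g π) z = 0 := by
          apply pr_eq_zero_of_disj
          intro n hn
          by_contra hne
          exact hπ' ⟨hπ.1, hπ.2, n, hn, hs n hne⟩
        rw [h6, mul_zero]
    rw [h3]
    rcases Nat.lt_or_ge 0 #(bigPos c g τ p q) with h4 | h4
    · obtain ⟨π, hπ⟩ := Finset.card_eq_one.1 (show #(bigPos c g τ p q) = 1 by omega)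
      rw [hπ, Finset.sum_singleton, abs_mul]
      have h5 : π ∈ c.support := (mem_bigPos.1 (by rw [hπ]; simp : π ∈ bigPos c g τ p q)).1
      have h6 := child_le hP h5 hz
      have h7 := hP.c1 π
      have h8 := abs_nonneg (c π)
      calc |c π| * |pr (g π) z| ≤ (1 / 8 : ℝ) ^ v * 8 :=
            mul_le_mul h7 h6 (abs_nonneg _) (by positivity)
        _ = _ := mul_comm _ _
    · rw [Finset.card_eq_zero.1 (Nat.le_zero.1 h4), Finset.sum_empty, abs_zero]
      exact hnn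

/-- functionals of low type on an average -/
theorem low_eval {v : ℕ} (hv : 1 ≤ v) {f : Fn} (hf : Typ v f) {F : Finset ℕ} {b : ℕ → ℝ}
    {z : ℕ → ℕ → ℝ} {p q : ℕ → ℕ} (hb : ∀ i ∈ F, 0 < b i) (hb1 : ∑ i ∈ F, b i = 1)
    (hz : ∀ i ∈ F, ∀ f, Good 0 f → |pr f (z i)| ≤ 1)
    (hs : ∀ i ∈ F, ∀ n, z i n ≠ 0 → p i ≤ n ∧ n ≤ q i) {δ : ℝ}
    (hω : ∀ ω : ℕ → Fn, (∀ i ∈ F, (∀ n ∈ (ω i).support, p i < n ∧ n ≤ q i) ∧ tau (ω i) ≤ 1) →
      tau (∑ i ∈ F, b i • ω i) ≤ δ) :
    |pr f (fun n => ∑ i ∈ F, b i * z i n)| ≤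
      9 * (1 / 8 : ℝ) ^ v + 8 ^ (2 * v + 1) * (bb v * δ) := by
  classical
  obtain ⟨c, g, hP, rfl⟩ := hf
  set τ : ℝ := (1 / 8 : ℝ) ^ (2 * v + 1) with hτ
  have hτ0 : 0 < τ := by positivity
  have hsplit : patF c g = patF (c.filter fun π => τ ≤ |c π|) g +
      patF (c.filter fun π => ¬ τ ≤ |c π|) g := by
    rw [← patF_add, Finsupp.filter_add_filter_not]
  rw [hsplit, pr_add]
  have h1 := small_part hP (w := fun n => ∑ i ∈ F, b i * z i n)
    (fun f hf => avg_norming hb hb1 hz hf)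
  have h2 : |pr (patF (c.filter fun π => τ ≤ |c π|) g) (fun n => ∑ i ∈ F, b i * z i n)| ≤
      8 * (1 / 8 : ℝ) ^ v + 8 ^ (2 * v + 1) * (bb v * δ) := by
    set F2 := F.filter fun i => 2 ≤ #(bigPos c g τ (p i) (q i)) with hF2
    have h3 : ∀ i ∈ F2, ∃ ρ, τ ≤ |c ρ| ∧ p i < ρ ∧ ρ ≤ q i := by
      intro i hi
      rw [hF2, Finset.mem_filter] at hi
      obtain ⟨ρ, hρ, hρ1, hρ2⟩ := bigPos_two hP hi.2
      exact ⟨ρ, (mem_bigPos.1 hρ).2.1, hρ1, hρ2⟩
    have h3' : ∀ i, ∃ ρ, i ∈ F2 → τ ≤ |c ρ| ∧ p i < ρ ∧ ρ ≤ q i := by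
      intro i
      by_cases hi : i ∈ F2
      · obtain ⟨ρ, hρ⟩ := h3 i hi
        exact ⟨ρ, fun _ => hρ⟩
      · exact ⟨0, fun h => absurd h hi⟩
    choose ρ hρ using h3'
    have h4 := sum_two_le hP (Finset.filter_subset _ F) hb hω ρ (fun i hi => hρ i hi)
    have h5 : ∑ i ∈ F2, b i ≤ 8 ^ (2 * v + 1) * (bb v * δ) := by
      have h6 : (8 : ℝ) ^ (2 * v + 1) * (τ * ∑ i ∈ F2, b i) ≤ 8 ^ (2 * v + 1) * (bb v * δ) :=
        mul_le_mul_of_nonneg_left h4 (by positivity)
      have h7 : (8 : ℝ) ^ (2 * v + 1) * τ = 1 := by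
        rw [hτ, ← mul_pow]; norm_num
      rw [← mul_assoc, h7, one_mul] at h6
      exact h6
    rw [pr_fsum]
    calc |∑ i ∈ F, b i * pr (patF (c.filter fun π => τ ≤ |c π|) g) (z i)|
        ≤ ∑ i ∈ F, |b i * pr (patF (c.filter fun π => τ ≤ |c π|) g) (z i)| :=
          Finset.abs_sum_le_sum_abs _ _
      _ ≤ ∑ i ∈ F, (8 * (1 / 8 : ℝ) ^ v * b i +
            if 2 ≤ #(bigPos c g τ (p i) (q i)) then b i else 0) := by
          apply Finset.sum_le_sum
          intro i hi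
          rw [abs_mul, abs_of_pos (hb i hi)]
          have h6 := large_part hv hP τ (hz i hi) (hs i hi)
          have h7 := mul_le_mul_of_nonneg_left h6 (hb i hi).le
          refine h7.trans (le_of_eq ?_)
          split_ifs <;> ring
      _ = 8 * (1 / 8 : ℝ) ^ v + ∑ i ∈ F2, b i := by
          rw [Finset.sum_add_distrib, ← Finset.mul_sum, hb1, mul_one, hF2, Finset.sum_filter]
      _ ≤ _ := by linarith
  refine (abs_add_le _ _).trans ?_
  linarith

end Pool.Agent.Helper23.AC.H28
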