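import Pool.Agent.Helper28.AC.PairLow

/-! AC-10: existence of good pairs, from the statements of AC-2, AC-6 and AC-9 (MP_981e7e_an) -/

set_option autoImplicit false

namespace Pool.Agent.Helper23.AC.H28

open Finset

theorem blk_l_mono {x : ℕ → Fn} {l r : ℕ → ℕ} (h : Blk x l r) : Monotone l :=
  monotone_nat_of_le_succ fun s => (h.lr s).trans (h.sep s).le

theorem blk_r_mono {x : ℕ → Fn} {l r : ℕ → ℕ} (h : Blk x l r) : Monotone r :=
  monotone_nat_of_le_succ fun s => (h.sep s).le.trans (h.lr (s + 1))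

theorem blk_le_l {x : ℕ → Fn} {l r : ℕ → ℕ} (h : Blk x l r) (s : ℕ) : s ≤ l s := by
  induction s with
  | zero => exact Nat.zero_le _
  | succ s ih => exact Nat.succ_le_of_lt (lt_of_le_of_lt (ih.trans (h.lr s)) (h.sep s))

theorem blk_tail {x : ℕ → Fn} {l r : ℕ → ℕ} (h : Blk x l r) (t : ℕ) :
    Blk (fun s => x (s + t)) (fun s => l (s + t)) (fun s => r (s + t)) where
  lr s := h.lr _
  sep s := by
    have := h.sep (s + t)
    rw [show s + t + 1 = s + 1 + t by ring] at this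
    exact this
  supp s := h.supp _

theorem exists_pair_of
    (hav : ∀ (k : ℕ) (A B : ℕ → ℕ), (∀ s, A s ≤ B s) → (∀ s, B s < A (s + 1)) → ∀ s₀ : ℕ,
      ∃ (F : Finset ℕ) (b : ℕ → ℝ), (∀ s ∈ F, s₀ ≤ s ∧ 0 < b s) ∧ ∑ s ∈ F, b s = 1 ∧
        UB (2 ^ k) (∑ s ∈ F, Finsupp.single (A s) 1) ∧
        ∀ ω : ℕ → Fn, (∀ s ∈ F, (∀ n ∈ (ω s).support, A s ≤ n ∧ n ≤ B s) ∧ tau (ω s) ≤ 1) →
          tau (∑ s ∈ F, b s • ω s) ≤ 4 / 2 ^ k)
    (hnorm : ∀ {x : Fn} {l r : ℕ}, x ≠ 0 → (∀ n ∈ x.support, l ≤ n ∧ n ≤ r) →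
      ∃ z : ℕ → ℝ, (∀ n, z n ≠ 0 → l ≤ n ∧ n ≤ r) ∧ pr x z = nx x ∧
        ∀ f, Good 0 f → |pr f z| ≤ 1)
    (hstep2 : ∀ {x : ℕ → Fn} {l r : ℕ → ℕ}, Blk x l r → (∀ s, x s ≠ 0) → ∀ k : ℕ,
      ∃ (y : ℕ → Fn) (l' r' : ℕ → ℕ), Blk y l' r' ∧ (∀ i, l 0 ≤ l' i) ∧
        (∀ i, y i ∈ Submodule.span ℝ (Set.range x)) ∧ (∀ i, nx (y i) = 1) ∧
        ∀ (F : Finset ℕ) (c : ℕ → ℝ), (∀ i ∈ F, |c i| ≤ 1) →
          UB (2 ^ k) (∑ i ∈ F, Finsupp.single (r' i + 1) (c i)) →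
          nx (∑ i ∈ F, c i • y (i + 1)) ≤ 2)
    {x : ℕ → Fn} {l r : ℕ → ℕ} (hB : Blk x l r) (hx : ∀ s, x s ≠ 0) (L r₀ : ℕ) :
    ∃ (y : Fn) (w : ℕ → ℝ) (a b : ℕ), y ∈ Submodule.span ℝ (Set.range x) ∧ r₀ < a ∧ a ≤ b ∧
      IsPair L a b y w := by
  classical
  obtain ⟨y, l', r', hY, hl0, hspan, hnx, hF⟩ := hstep2 (blk_tail hB (r₀ + 1))
    (fun s => hx _) (12 * L ^ 2 + 9 * L + 5)
  have hy0 : ∀ i, y i ≠ 0 := by
    intro i h0
    have := hnx i
    rw [h0] at this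
    unfold nx at this
    rw [gauge_zero] at this
    exact zero_ne_one this
  have hz : ∀ i, ∃ z : ℕ → ℝ, (∀ n, z n ≠ 0 → l' (i + 1) ≤ n ∧ n ≤ r' (i + 1)) ∧
      pr (y (i + 1)) z = 1 ∧ ∀ f, Good 0 f → |pr f z| ≤ 1 := by
    intro i
    obtain ⟨z, hz1, hz2, hz3⟩ := hnorm (hy0 (i + 1)) (hY.supp (i + 1))
    exact ⟨z, hz1, hz2.trans (hnx _), hz3⟩
  choose z hz1 hz2 hz3 using hz
  obtain ⟨F, b, hb, hb1, hUB, hω⟩ := hav (12 * L ^ 2 + 9 * L + 5) (fun i => r' i + 1)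
    (fun i => r' (i + 1)) (fun i => lt_of_lt_of_le (hY.sep i) (hY.lr (i + 1)))
    (fun i => Nat.lt_succ_self _) 0
  have hb0 : ∀ i ∈ F, 0 < b i := fun i hi => (hb i hi).2
  have hne : F.Nonempty := by
    rw [Finset.nonempty_iff_ne_empty]
    rintro rfl
    rw [Finset.sum_empty] at hb1
    exact zero_ne_one hb1
  have hwin : ∀ i ∈ F, l' (F.min' hne + 1) ≤ l' (i + 1) ∧ r' (i + 1) ≤ r' (F.max' hne + 1) := by
    intro i hi
    exact ⟨blk_l_mono hY (Nat.succ_le_succ (Finset.min'_le _ _ hi)),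
      blk_r_mono hY (Nat.succ_le_succ (Finset.le_max' _ _ hi))⟩
  have hdisj : ∀ i j, i ≠ j → pr (y (i + 1)) (z j) = 0 := by
    intro i j hij
    apply pr_eq_zero_of_disj
    intro n hn
    by_contra hne
    have h1 := hz1 j n hne
    have h2 := hY.supp (i + 1) n hn
    rcases lt_or_gt_of_ne hij with h | h
    · have h3 := hY.sep (i + 1)
      have h4 : l' (i + 1 + 1) ≤ l' (j + 1) := blk_l_mono hY (by omega)
      omega
    · have h3 := hY.sep (j + 1)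
      have h4 : l' (j + 1 + 1) ≤ l' (i + 1) := blk_l_mono hY (by omega)
      omega
  refine ⟨∑ i ∈ F, y (i + 1), fun n => ∑ i ∈ F, b i * z i n, l' (F.min' hne + 1),
    r' (F.max' hne + 1), ?_, ?_, ?_, ?_⟩
  · refine Submodule.sum_mem _ fun i _ => ?_
    refine Submodule.span_mono ?_ (hspan (i + 1))
    rintro u ⟨s, rfl⟩
    exact ⟨_, rfl⟩
  · have h1 := hl0 (F.min' hne + 1)
    have h2 := blk_le_l hB (0 + (r₀ + 1))
    change l (0 + (r₀ + 1)) ≤ _ at h1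
    omega
  · exact (hwin _ (Finset.max'_mem _ hne)).1.trans (hY.lr _)
  · refine ⟨?_, ?_, ?_, ?_, ?_, ?_⟩
    · intro n hn
      have h1 := Finsupp.support_finsetSum hn
      rw [Finset.mem_biUnion] at h1
      obtain ⟨i, hi, hni⟩ := h1
      have h2 := hY.supp (i + 1) n hni
      have h3 := hwin i hi
      omega
    · intro n hn
      obtain ⟨i, hi, hni⟩ := Finset.exists_ne_zero_of_sum_ne_zero hn
      have h2 := hz1 i n (fun h => hni (by rw [h, mul_zero]))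
      have h3 := hwin i hi
      omega
    · rw [pr_sum, ← hb1]
      apply Finset.sum_congr rfl
      intro i hi
      rw [pr_fsum, Finset.sum_eq_single i]
      · rw [hz2, mul_one]
      · intro j _ hji
        rw [hdisj i j (Ne.symm hji), mul_zero]
      · intro h
        exact absurd hi h
    · have h1 := hF F (fun _ => 1) (fun _ _ => by simp) hUB
      simpa using h1
    · intro f hf
      exact avg_norming hb0 hb1 (fun i _ => hz3 i) hf
    · intro v hv hvL f hf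
      have h1 := low_eval hv hf hb0 hb1 (fun i _ => hz3 i) (fun i _ => hz1 i)
        (p := fun i => l' (i + 1)) (q := fun i => r' (i + 1))
        (δ := 4 / 2 ^ (12 * L ^ 2 + 9 * L + 5)) (by
          intro ω hω'
          apply hω
          intro i hi
          refine ⟨fun n hn => ?_, (hω' i hi).2⟩
          have h2 := (hω' i hi).1 n hn
          have h3 := hY.sep i
          omega)
      refine h1.trans ?_
      have h2 : (8 : ℝ) ^ (2 * v + 1) * (bb v * (4 / 2 ^ (12 * L ^ 2 + 9 * L + 5))) ≤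
          (1 / 8 : ℝ) ^ v := by
        have e1 : (8 : ℝ) ^ (2 * v + 1) = 2 ^ (6 * v + 3) := by
          rw [show (8 : ℝ) = 2 ^ 3 by norm_num, ← pow_mul]; ring_nf
        have e2 : (1 / 8 : ℝ) ^ v = 1 / 2 ^ (3 * v) := by
          rw [div_pow, one_pow, show (8 : ℝ) = 2 ^ 3 by norm_num, ← pow_mul]
        have e3 : (4 : ℝ) = 2 ^ 2 := by norm_num
        rw [e1, e2, bb, e3, le_div_iff₀ (by positivity), ← mul_div_assoc, ← mul_div_assoc,
          div_mul_eq_mul_div, div_le_one (by positivity), ← pow_add, ← pow_add, ← pow_add]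
        apply pow_le_pow_right₀ (by norm_num)
        nlinarith [Nat.mul_le_mul hvL hvL]
      linarith

end Pool.Agent.Helper23.AC.H28
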